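import Mathlib

set_option autoImplicit false

namespace Pool.Agent.Results.MP_7e5e3f_co.Counter

variable {n : ℕ}

def corona (G : SimpleGraph (Fin n)) : Set (Fin n) :=
  {v | ∃ S : Finset (Fin n), G.IsMaximumIndepSet S ∧ v ∈ S}

noncomputable def diff (G : SimpleGraph (Fin n)) (X : Set (Fin n)) : ℤ :=
  (X.ncard : ℤ) - ({v | ∃ x ∈ X, G.Adj v x}.ncard : ℤ)

def ker (G : SimpleGraph (Fin n)) : Set (Fin n) :=
  {v | ∀ X, G.IsIndepSet X → (∀ Y, G.IsIndepSet Y → diff G Y ≤ diff G X) → v ∈ X}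

def Dset (G : SimpleGraph (Fin n)) : Set (Fin n) :=
  {v | ∃ M : G.Subgraph, M.IsMatching ∧
    (∀ M' : G.Subgraph, M'.IsMatching → M'.edgeSet.ncard ≤ M.edgeSet.ncard) ∧ v ∉ M.verts}

def oddCycles {W : Type} (H : SimpleGraph W) : Set (Set (Sym2 W)) :=
  {E | ∃ (v : W) (c : H.Walk v v), c.IsCycle ∧ Odd c.length ∧ E = {e | e ∈ c.edges}}

def Packs (G : SimpleGraph (Fin n)) (k : ℕ) : Prop :=
  ∃ (v : Fin k → Fin n) (c : ∀ i, G.Walk (v i) (v i)), (∀ i, (c i).IsCycle ∧ Odd (c i).length) ∧
    ∀ i j, i ≠ j → ∀ x, x ∈ (c i).support → x ∉ (c j).support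

abbrev K : SimpleGraph (Fin 4) := ⊤

theorem indep_le (S : Finset (Fin 4)) (h : K.IsIndepSet S) : S.card ≤ 1 := by
  rw [Finset.card_le_one]
  intro a ha b hb
  by_contra hab
  exact h ha hb hab hab

theorem single (v : Fin 4) : K.IsMaximumIndepSet {v} := by
  refine ⟨by simp, fun t ht => ?_⟩
  simpa using indep_le t ht

theorem alpha : K.indepNum = 1 := by
  rw [← SimpleGraph.maximumIndepSet_card_eq_indepNum _ (single 0)]
  simp

theorem corona_eq : corona K = Set.univ :=
  Set.eq_univ_of_forall (fun v => ⟨{v}, single v, by simp⟩)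

theorem key : ∀ v a b c d : Fin 4, a ≠ b → c ≠ d → a ≠ v → b ≠ v → c ≠ v → d ≠ v →
    a = c ∨ a = d ∨ b = c ∨ b = d := by decide

theorem small (M : K.Subgraph) (hM : M.IsMatching) (v : Fin 4) (hv : v ∉ M.verts) :
    M.edgeSet.ncard ≤ 1 := by
  rw [Set.ncard_le_one_iff (Set.toFinite _)]
  intro e f he hf
  induction e using Sym2.ind with
  | _ a b =>
  induction f using Sym2.ind with
  | _ c d =>
  rw [SimpleGraph.Subgraph.mem_edgeSet] at he hf
  have u : ∀ x y z, M.Adj x y → M.Adj x z → y = z := fun x y z h1 h2 =>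
    (hM (M.edge_vert h1)).unique h1 h2
  have n1 : ∀ x y, M.Adj x y → x ≠ v := fun x y h e => hv (e ▸ M.edge_vert h)
  rcases key v a b c d he.ne hf.ne (n1 _ _ he) (n1 _ _ he.symm) (n1 _ _ hf) (n1 _ _ hf.symm)
    with rfl | rfl | rfl | rfl
  · rw [u _ _ _ he hf]
  · rw [u _ _ _ he hf.symm, Sym2.eq_swap]
  · rw [u _ _ _ he.symm hf, Sym2.eq_swap]
  · rw [u _ _ _ he.symm hf.symm]

def PM : K.Subgraph where
  verts := Set.univ
  Adj x y := x.val + y.val = 3
  adj_sub := by intro x y h e; rw [e] at h; omega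
  edge_vert := by intro x y _; trivial
  symm := ⟨by intro x y h; omega⟩

theorem PM_matching : PM.IsMatching := by
  intro x _
  refine ⟨⟨3 - x.val, by omega⟩, ?_, ?_⟩
  · show x.val + (3 - x.val) = 3
    omega
  · intro y hy
    have : x.val + y.val = 3 := hy
    apply Fin.ext
    simp only
    omega

theorem D_eq : Dset K = ∅ := by
  rw [Set.eq_empty_iff_forall_notMem]
  rintro v ⟨M, h1, h2, h3⟩
  have h4 := (h2 PM PM_matching).trans (small M h1 v h3)
  rw [Set.ncard_le_one_iff (Set.toFinite _)] at h4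
  have h5 : s((0 : Fin 4), (3 : Fin 4)) = s(1, 2) :=
    h4 (show (0 : Fin 4).val + (3 : Fin 4).val = 3 from rfl)
      (show (1 : Fin 4).val + (2 : Fin 4).val = 3 from rfl)
  revert h5
  decide

theorem three {v : Fin 4} (c : K.Walk v v) (h : c.IsCycle) : 3 ≤ c.support.toFinset.card := by
  have h1 := h.three_le_length
  have h2 := List.toFinset_card_of_nodup h.support_nodup
  have h3 : c.support.tail.toFinset ⊆ c.support.toFinset := by
    intro x hx
    rw [List.mem_toFinset] at hx ⊢
    exact List.mem_of_mem_tail hx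
  have h4 := Finset.card_le_card h3
  rw [List.length_tail, SimpleGraph.Walk.length_support] at h2
  omega

theorem packs_le (k : ℕ) (h : Packs K k) : k ≤ 1 := by
  obtain ⟨v, c, h1, h2⟩ := h
  by_contra hk
  let i : Fin k := ⟨0, by omega⟩
  let j : Fin k := ⟨1, by omega⟩
  have hij : i ≠ j := by intro h; have := congrArg Fin.val h; simp [i, j] at this
  have h3 : Disjoint (c i).support.toFinset (c j).support.toFinset := by
    rw [Finset.disjoint_left]
    intro x hx hy
    exact h2 i j hij x (List.mem_toFinset.1 hx) (List.mem_toFinset.1 hy)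
  have h4 := Finset.card_union_of_disjoint h3
  have h5 := Finset.card_le_univ ((c i).support.toFinset ∪ (c j).support.toFinset)
  have h6 := three _ (h1 i).1
  have h7 := three _ (h1 j).1
  rw [Fintype.card_fin] at h5
  omega

theorem result : ∃ (n : ℕ) (G : SimpleGraph (Fin n)), G.Connected ∧
    2 * G.indepNum + (oddCycles (G.induce (Dset G))).ncard < (corona G).ncard + (ker G).ncard ∧
    ∀ k, Packs G k → 2 * G.indepNum + k < (corona G).ncard + (ker G).ncard := by
  have hc : (corona K).ncard = 4 := by rw [corona_eq, Set.ncard_univ]; simp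
  refine ⟨4, K, SimpleGraph.connected_top, ?_, fun k hk => ?_⟩
  · have h : oddCycles (K.induce (Dset K)) = ∅ := by
      rw [Set.eq_empty_iff_forall_notMem]
      rintro E ⟨⟨v, hv⟩, -⟩
      rw [D_eq] at hv
      exact hv
    rw [h, alpha, hc]
    simp
    omega
  · have := packs_le k hk
    rw [alpha, hc]
    omega

end Pool.Agent.Results.MP_7e5e3f_co.Counter
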